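import Pool.Agent.Q30.RG.Orl

/-!
# A Courant-Lebesgue inequality for CAT(0) groups without rank one isometries

Let `G` act geometrically on a proper geodesically complete CAT(0) space `X` and let
`|g| = d(o, g o)`.  Theorem: if `G` contains no rank one isometry of `X` then for every function
`f` on a Cayley graph of `G` without local extrema (harmonic functions for arbitrary conductances,
`p`-harmonic functions) and every `r ≥ 1` the oscillation of `f` on the ball of radius `r` is at
most `K` times the sum of the variation of `f` over a set of at most `K r` elements near the sphere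
of radius `r`; the constant `K` depends only on the action and the generators.

In particular such an `f` is constant if `∑ Φ (variation of f) < ∞` for a convex function `Φ` with
`∑ n Φ (δ / n) = ∞` (for `Φ t = t ^ 2`, and for `Φ t = t ^ 2 / log (1 / t)` near zero), or if its
variation at `g` is `o (1 / |g|)`; and harmonic 1-cocycles of linear representations vanish
against every functional for which the coefficients of the cocycle are `o (1 / |g|)`.

Idea of the proof.  Without rank one isometries points near the sphere of radius `r` are joined by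
walks of length at most `C (r + 1)` near the sphere (library of the starting file EnergyRankOne).
A function without local extrema takes near every larger sphere a value at least as large and a
value at least as small as any given value on the ball.  A shortest walk between two such elements
has no repetitions and its steps are words in the generators.
-/

set_option autoImplicit false

universe u v w

namespace Pool.Agent.Results.MP_ff40e8_al.CourantLebesgue

open Set Metric Filter

/-- The inequality of Bruhat and Tits: a complete metric space is CAT(0) if and only if any two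
points `p`, `q` have a midpoint `m` such that
`d(x, m)² ≤ (d(x, p)² + d(x, q)²) / 2 - d(p, q)² / 4` for all `x`. -/
def BruhatTits (X : Type u) [MetricSpace X] : Prop := ∀ p q : X, ∃ m : X, ∀ x : X,
  dist x m ^ 2 ≤ (dist x p ^ 2 + dist x q ^ 2) / 2 - dist p q ^ 2 / 4

/-- Every geodesic segment extends to a geodesic line: for `p ≠ q` there is a line through `p` and
`q` (in a CAT(0) space it contains the unique geodesic segment from `p` to `q`). -/
def GeodesicallyComplete (X : Type u) [MetricSpace X] : Prop :=
  ∀ p q : X, p ≠ q → ∃ c : ℝ → X, Isometry c ∧ c 0 = p ∧ c (dist p q) = q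

/-- The line `c` bounds a flat half-plane: there is an isometric embedding `H` of the Euclidean
half-plane `ℝ × [0, ∞)` in `X` which extends `c`. -/
def BoundsHalfPlane {X : Type u} [MetricSpace X] (c : ℝ → X) : Prop :=
  ∃ H : ℝ × NNReal → X,
    (∀ p q : ℝ × NNReal, dist (H p) (H q) ^ 2 = (p.1 - q.1) ^ 2 + ((p.2 : ℝ) - q.2) ^ 2) ∧
    ∀ t : ℝ, H (t, 0) = c t

/-- `g` is a rank one isometry of `X`: it translates a geodesic line `c` by `τ > 0`, and this axis
does not bound a flat half-plane. -/
def IsRankOne (X : Type u) [MetricSpace X] {G : Type v} [Group G] [MulAction G X] (g : G) : Prop :=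
  ∃ (τ : ℝ) (c : ℝ → X), 0 < τ ∧ Isometry c ∧ (∀ t, g • c t = c (t + τ)) ∧ ¬ BoundsHalfPlane c

/-- The function `f` on the Cayley graph with edges `{g, g s}`, `s ∈ S`, has no local extrema: at
a vertex where it has a local maximum or a local minimum it is equal to its values at the
neighbours. -/
def NoLocalExtrema {G : Type v} [Group G] (S : Finset G) (f : G → ℝ) : Prop :=
  ∀ g : G, ((∀ s ∈ S, f (g * s) ≤ f g) ∨ (∀ s ∈ S, f g ≤ f (g * s))) → ∀ s ∈ S, f (g * s) = f g

/-- The variation of `f` at the vertex `g`: the sum of `|f (g s) - f g|` over the generators. -/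
noncomputable def Variation {G : Type v} [Group G] (S : Finset G) (f : G → ℝ) (g : G) : ℝ :=
  ∑ s ∈ S, |f (g * s) - f g|

/-- Let `G` act geometrically (by isometries, properly discontinuously, cocompactly) on a proper
geodesically complete CAT(0) space `X`, let `o` be a point of `X` and let `S` be a finite symmetric
generating set of `G`.  Then `G` contains a rank one isometry of `X`, or the following hold.

1. There is `K > 0` such that for every function `f` without local extrema, every `r ≥ 1` and all
   `p`, `q` with `|p|, |q| ≤ r` there is a set `W` of at most `K r` elements with `||x| - r| ≤ K`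
   and `|f p - f q| ≤ K ∑_{x ∈ W} (variation of f at x)`.
2. Let `Φ` be a nonnegative convex function on `[0, ∞)` with `Φ 0 = 0` and
   `∑ n Φ (δ / n) = ∞` for all `δ > 0`.  Then functions `f` without local extrema and with
   `∑_g Φ (variation of f at g) < ∞` are constant.
3. Let `b` be a 1-cocycle of a linear representation `π` of `G` on a real vector space which is
   harmonic, `∑_{s ∈ S} b s = 0`, and let `φ` be a linear functional with
   `|g| φ (π g (b s)) → 0` for `g → ∞`, for all `s ∈ S`.  Then `φ (b g) = 0` for all `g`. -/
theorem result {X : Type u} [MetricSpace X] [ProperSpace X] (hX : BruhatTits X)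
    (hc : GeodesicallyComplete X)
    {G : Type v} [Group G] [MulAction G X] [IsIsometricSMul G X] [ProperlyDiscontinuousSMul G X]
    (hcc : ∃ K : Set X, IsCompact K ∧ ∀ x : X, ∃ g : G, g • x ∈ K) (o : X)
    (S : Finset G) (hS : ∀ s ∈ S, s⁻¹ ∈ S) (hgen : Subgroup.closure (S : Set G) = ⊤) :
    (∃ g : G, IsRankOne X g) ∨
      ((∃ K : ℝ, 0 < K ∧ ∀ f : G → ℝ, NoLocalExtrema S f → ∀ (r : ℝ) (p q : G), 1 ≤ r →
          dist o (p • o) ≤ r → dist o (q • o) ≤ r →
          ∃ W : Finset G, (W.card : ℝ) ≤ K * r ∧ (∀ x ∈ W, |dist o (x • o) - r| ≤ K) ∧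
            |f p - f q| ≤ K * ∑ x ∈ W, Variation S f x) ∧
        (∀ Φ : ℝ → ℝ, ConvexOn ℝ (Set.Ici 0) Φ → Φ 0 = 0 → (∀ t, 0 ≤ t → 0 ≤ Φ t) →
          (∀ δ : ℝ, 0 < δ → ¬ Summable (fun n : ℕ => (n : ℝ) * Φ (δ / n))) →
          ∀ f : G → ℝ, NoLocalExtrema S f → Summable (fun g => Φ (Variation S f g)) →
            ∀ p q : G, f p = f q) ∧
        (∀ (V : Type w) [AddCommGroup V] [Module ℝ V] (π : Representation ℝ G V) (b : G → V),
          (∀ g h, b (g * h) = b g + π g (b h)) → ∑ s ∈ S, b s = 0 → ∀ φ : V →ₗ[ℝ] ℝ,
          (∀ s ∈ S, Tendsto (fun g => dist o (g • o) * φ (π g (b s))) cofinite (nhds 0)) →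
            ∀ g : G, φ (b g) = 0)) := by
  have hG : Pool.Agent.Y34.HB.Geo X G := ⟨inferInstance, inferInstance, inferInstance, hcc, hX⟩
  by_cases hno : ∀ g : G, ¬ Pool.Agent.Y34.EL.RankOne X g
  · right
    obtain ⟨K, hK, hCL⟩ := Pool.Agent.Q30.RG.courant hG hc hno o S hS hgen
    refine ⟨⟨K, hK, hCL⟩, ?_, ?_⟩
    · intro Φ h1 h2 h3 h4 f hf hs p q
      exact Pool.Agent.Q30.RG.orlicz (fun g : G => dist o (g • o)) S K hK hCL f hf Φ h1 h2 h3 h4
        hs p q
    · intro V _ _ π b hb hh φ hd g
      have h1 := Pool.Agent.Q30.RG.cocycle (fun g : G => dist o (g • o)) S K hK hCL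
        (fun g => π g) b hb hh φ hd g 1
      have h2 : b 1 = 0 := by
        have h3 := hb 1 1
        rw [mul_one, map_one] at h3
        simpa using h3
      rw [h1, h2, map_zero]
  · left
    push Not at hno
    obtain ⟨g, τ, c, hτ, hc, he⟩ := hno
    refine ⟨g, τ, c, hτ, hc.1, hc.2, ?_⟩
    rintro ⟨H, hH⟩
    have : H ∈ Pool.Agent.Y34.HB.HP c := hH
    rw [he] at this
    exact this

end Pool.Agent.Results.MP_ff40e8_al.CourantLebesgue
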